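import Mathlib
import Pool.Agent.N318.TG.A

set_option autoImplicit false

/-!
# Lang's lower bound at the values of multiplicative functions

Lang's inequality with `C = 1` and without loss in the exponent for the rationals whose numerators and
denominators are close to values of multiplicative functions.
-/

namespace Pool.Agent.Results.MP_90c6bd_nt.MultiplicativeValues

open Finset
open Pool.Agent.N733.TG (LM)

/-- The multiplicative height of a rational number. -/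
def hgt (x : ℚ) : ℕ := max x.num.natAbs x.den

/-- The linear form `b_1 log a_1 + ... + b_n log a_n`. -/
noncomputable def Lam {n : ℕ} (a : Fin n → ℚ) (b : Fin n → ℤ) : ℝ :=
  ∑ i, (b i : ℝ) * Real.log (a i)

/-- `B_j = max (1, |b_j|)`. -/
def Bj (x : ℤ) : ℕ := max 1 x.natAbs

/-- The largest of the `B_j`. -/
def maxB {n : ℕ} (b : Fin n → ℤ) : ℕ := univ.sup fun i => Bj (b i)

/-- The product of the `B_j A_j ^ 2`. -/
def prodBA {n : ℕ} (a : Fin n → ℚ) (b : Fin n → ℤ) : ℕ := ∏ i, Bj (b i) * hgt (a i) ^ 2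

/-- The rationals with the numerators `α_1, …, α_n` and the denominators `α_(n+1), …, α_(2n)`. -/
def rats {n : ℕ} (α : Fin (n + n) → ℤ) : Fin n → ℚ :=
  fun i => (α (Fin.castAdd n i) : ℚ) / (α (Fin.natAdd n i) : ℚ)

/-- The exceptions: Lang's inequality with `C = 1` and the exponent `1` fails for some `b ≠ 0` with
`max |b_j| ≤ (max α) ^ θ`. -/
def Exc (n : ℕ) (θ : ℝ) : Set (Fin (n + n) → ℤ) :=
  {α | (∀ i, 0 < α i) ∧ ∃ b : Fin n → ℤ, b ≠ 0 ∧ (∃ l, ∀ j, |(b j : ℝ)| ≤ (α l : ℝ) ^ θ) ∧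
    |Lam (rats α) b| ≤ (maxB b : ℝ) / (prodBA (rats α) b : ℝ)}

/-! ### Counting -/

lemma fiber_one {k : ℕ} (T M : ℕ) (S : Finset (Fin k → ℤ)) (i : Fin k)
    (hS : ∀ α ∈ S, ∀ j, 1 ≤ α j ∧ α j ≤ (T : ℤ))
    (hM : ∀ β : Fin k → ℤ, (S.filter (fun α => Function.update α i 1 = β)).card ≤ M) :
    S.card ≤ M * T ^ (k - 1) := by
  classical
  have h1 := Finset.card_le_mul_card_image (f := fun α : Fin k → ℤ => Function.update α i 1) S M
    (fun β _ => hM β)
  refine h1.trans (Nat.mul_le_mul_left _ ?_)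
  have hsub : S.image (fun α : Fin k → ℤ => Function.update α i 1) ⊆
      Fintype.piFinset (fun j : Fin k => if j = i then ({1} : Finset ℤ) else Icc 1 (T : ℤ)) := by
    intro β hβ
    rw [mem_image] at hβ
    obtain ⟨α, hα, rfl⟩ := hβ
    rw [Fintype.mem_piFinset]
    intro j
    by_cases hj : j = i
    · subst hj
      simp
    · rw [Function.update_of_ne hj, if_neg hj, mem_Icc]
      exact hS α hα j
  refine (card_le_card hsub).trans (le_of_eq ?_)
  rw [Fintype.card_piFinset, ← Finset.mul_prod_erase univ _ (mem_univ i), if_pos rfl, card_singleton, one_mul]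
  rw [Finset.prod_congr rfl (fun j hj => by rw [if_neg (Finset.ne_of_mem_erase hj)]), prod_const,
    card_erase_of_mem (mem_univ i), card_univ, Fintype.card_fin, Int.card_Icc]
  congr 1
  omega

lemma fiber_ext {k : ℕ} {α α' : Fin k → ℤ} {i : Fin k} (h : Function.update α i 1 = Function.update α' i 1)
    (hi : α i = α' i) : α = α' := by
  funext j
  by_cases hj : j = i
  · subst hj; exact hi
  · have := congrFun h j
    rwa [Function.update_of_ne hj, Function.update_of_ne hj] at this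

lemma exp_sub_one {y : ℝ} (h0 : 0 ≤ y) (h2 : y ≤ 2) : Real.exp y - 1 ≤ 8 * y := by
  have h1 := Real.add_one_le_exp (-y)
  have h3 : Real.exp y * Real.exp (-y) = 1 := by rw [← Real.exp_add]; simp
  have hp := Real.exp_pos y
  have h4 : Real.exp y - 1 ≤ y * Real.exp y := by nlinarith
  have h5 : Real.exp y ≤ Real.exp 2 := Real.exp_le_exp.2 h2
  have h6 : Real.exp 2 < 8 := by
    have h7 : Real.exp 2 = Real.exp 1 * Real.exp 1 := by rw [← Real.exp_add]; norm_num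
    have h8 := Real.exp_one_lt_d9
    have h9 := Real.exp_pos 1
    rw [h7]; nlinarith
  nlinarith

/-- few numbers in a window of the logarithm -/
lemma window (T : ℕ) (c β w : ℝ) (hβ : 1 ≤ |β|) (hw0 : 0 ≤ w) (hw : w ≤ 1) (P : Finset ℤ)
    (hP : ∀ x ∈ P, 1 ≤ x ∧ x ≤ (T : ℤ) ∧ |c + β * Real.log x| ≤ w) : (P.card : ℝ) ≤ 16 * T * w + 1 := by
  have hT0 : (0 : ℝ) ≤ 16 * T * w := by positivity
  rcases P.eq_empty_or_nonempty with he | he
  · rw [he, card_empty, Nat.cast_zero]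
    linarith
  · obtain ⟨x0, hx0⟩ : ∃ x0, x0 = P.min' he := ⟨_, rfl⟩
    have hx0m : x0 ∈ P := by rw [hx0]; exact min'_mem _ _
    obtain ⟨g1, g2, g3⟩ := hP x0 hx0m
    have hx0r : (1 : ℝ) ≤ x0 := by exact_mod_cast g1
    have hx0T : (x0 : ℝ) ≤ T := by exact_mod_cast g2
    have hs : P ⊆ Icc x0 (x0 + (⌊16 * (T : ℝ) * w⌋₊ : ℤ)) := by
      intro x hx
      have h1 : x0 ≤ x := by rw [hx0]; exact min'_le _ _ hx
      rw [mem_Icc]
      refine ⟨h1, ?_⟩
      obtain ⟨k1, k2, k3⟩ := hP x hx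
      have hxr : (1 : ℝ) ≤ x := by exact_mod_cast k1
      have hxx : (x0 : ℝ) ≤ x := by exact_mod_cast h1
      have hlog : Real.log x0 ≤ Real.log x := Real.log_le_log (by linarith) hxx
      have h2 : |β| * (Real.log x - Real.log x0) ≤ 2 * w := by
        rw [← abs_of_nonneg (by linarith : 0 ≤ Real.log x - Real.log x0), ← abs_mul]
        have e1 : β * (Real.log x - Real.log x0) = (c + β * Real.log x) - (c + β * Real.log x0) := by ring
        rw [e1]
        calc _ ≤ |c + β * Real.log x| + |c + β * Real.log x0| := abs_sub _ _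
          _ ≤ 2 * w := by linarith
      have h3 : Real.log x - Real.log x0 ≤ 2 * w := by
        have : 0 ≤ Real.log x - Real.log x0 := by linarith
        nlinarith
      have h4 : (x : ℝ) ≤ x0 * Real.exp (2 * w) := by
        have e1 : Real.log x ≤ Real.log x0 + 2 * w := by linarith
        have e2 := Real.exp_le_exp.2 e1
        rw [Real.exp_log (by linarith), Real.exp_add, Real.exp_log (by linarith)] at e2
        exact e2
      have h5 := exp_sub_one (y := 2 * w) (by linarith) (by linarith)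
      have h6 : (x : ℝ) - x0 ≤ 16 * T * w := by
        have e0 : (x0 : ℝ) * (Real.exp (2 * w) - 1) ≤ T * (8 * (2 * w)) :=
          mul_le_mul hx0T h5 (by linarith [Real.one_le_exp (by linarith : 0 ≤ 2 * w)]) (by linarith)
        linarith
      have h7 : (((x - x0).toNat : ℕ) : ℝ) ≤ 16 * T * w := by
        have e1 : (((x - x0).toNat : ℕ) : ℤ) = x - x0 := Int.toNat_of_nonneg (by omega)
        have e2 : (((x - x0).toNat : ℕ) : ℝ) = (x : ℝ) - x0 := by
          have := congrArg (Int.cast : ℤ → ℝ) e1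
          push_cast at this
          exact this
        rw [e2]
        exact h6
      have h8 := Nat.le_floor h7
      omega
    have h5 := card_le_card hs
    rw [Int.card_Icc] at h5
    have h6 : (P.card : ℝ) ≤ (⌊16 * (T : ℝ) * w⌋₊ : ℝ) + 1 := by
      have : P.card ≤ ⌊16 * (T : ℝ) * w⌋₊ + 1 := by omega
      exact_mod_cast this
    have h7 := Nat.floor_le hT0
    linarith

/-- the linear form as a function of one numerator -/
lemma Lam_update {n : ℕ} (α : Fin (n + n) → ℤ) (hα : ∀ i, 1 ≤ α i) (b : Fin n → ℤ) (i : Fin n) :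
    Lam (rats α) b = Lam (rats (Function.update α (Fin.castAdd n i) 1)) b +
      b i * Real.log (α (Fin.castAdd n i)) := by
  have hlog : ∀ γ : Fin (n + n) → ℤ, (∀ l, 1 ≤ γ l) → Lam (rats γ) b =
      ∑ j, ((b j : ℝ) * Real.log (γ (Fin.castAdd n j)) - (b j : ℝ) * Real.log (γ (Fin.natAdd n j))) := by
    intro γ hγ
    unfold Lam rats
    refine sum_congr rfl fun j _ => ?_
    have h1 : ((γ (Fin.castAdd n j) : ℤ) : ℝ) ≠ 0 := by
      have := hγ (Fin.castAdd n j)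
      exact_mod_cast (by omega : γ (Fin.castAdd n j) ≠ 0)
    have h2 : ((γ (Fin.natAdd n j) : ℤ) : ℝ) ≠ 0 := by
      have := hγ (Fin.natAdd n j)
      exact_mod_cast (by omega : γ (Fin.natAdd n j) ≠ 0)
    push_cast
    rw [Real.log_div h1 h2]
    ring
  have hne : ∀ j : Fin n, Fin.natAdd n j ≠ Fin.castAdd n i := by
    intro j h
    have := congrArg Fin.val h
    simp only [Fin.val_natAdd, Fin.val_castAdd] at this
    omega
  rw [hlog α hα, hlog (Function.update α (Fin.castAdd n i) 1) (by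
    intro l
    by_cases hl : l = Fin.castAdd n i
    · subst hl; simp
    · rw [Function.update_of_ne hl]; exact hα l)]
  rw [← Finset.add_sum_erase univ _ (mem_univ i),
    ← Finset.add_sum_erase univ (fun j => ((b j : ℝ) * Real.log (Function.update α (Fin.castAdd n i) 1 (Fin.castAdd n j)) -
      (b j : ℝ) * Real.log (Function.update α (Fin.castAdd n i) 1 (Fin.natAdd n j)))) (mem_univ i)]
  rw [Function.update_self, Function.update_of_ne (hne i)]
  have h3 : ∑ j ∈ univ.erase i, ((b j : ℝ) * Real.log (Function.update α (Fin.castAdd n i) 1 (Fin.castAdd n j)) -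
      (b j : ℝ) * Real.log (Function.update α (Fin.castAdd n i) 1 (Fin.natAdd n j))) =
      ∑ j ∈ univ.erase i, ((b j : ℝ) * Real.log (α (Fin.castAdd n j)) - (b j : ℝ) * Real.log (α (Fin.natAdd n j))) := by
    refine sum_congr rfl fun j hj => ?_
    have h4 : Fin.castAdd n j ≠ Fin.castAdd n i := by
      intro h
      have h5 : j = i := Fin.castAdd_injective n n h
      exact (Finset.ne_of_mem_erase hj) h5
    rw [Function.update_of_ne h4, Function.update_of_ne (hne j)]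
  rw [h3]
  push_cast
  rw [Real.log_one]
  ring

lemma two (n : ℕ) (T : ℕ) (b : Fin n → ℤ) (i : Fin n) (hb : b i ≠ 0) (w : ℝ) (hw0 : 0 ≤ w) (hw : w ≤ 1)
    (S : Finset (Fin (n + n) → ℤ)) (hS : ∀ α ∈ S, (∀ j, 1 ≤ α j ∧ α j ≤ (T : ℤ)) ∧ |Lam (rats α) b| ≤ w) :
    (S.card : ℝ) ≤ (16 * T * w + 1) * (T : ℝ) ^ (n + n - 1) := by
  classical
  have h1 := fiber_one T (⌊16 * (T : ℝ) * w⌋₊ + 1) S (Fin.castAdd n i) (fun α hα => (hS α hα).1) (fun β => by
    have hinj : ((S.filter (fun α => Function.update α (Fin.castAdd n i) 1 = β)).card) ≤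
        (((S.filter (fun α => Function.update α (Fin.castAdd n i) 1 = β)).image (fun α => α (Fin.castAdd n i))).card) := by
      rw [card_image_of_injOn]
      intro α hα α' hα' h
      rw [mem_coe, mem_filter] at hα hα'
      exact fiber_ext (hα.2.trans hα'.2.symm) h
    refine hinj.trans ?_
    have h2 := window T (Lam (rats β) b) (b i) w (by
      have : (1 : ℤ) ≤ |b i| := Int.one_le_abs hb
      exact_mod_cast this) hw0 hw
      ((S.filter (fun α => Function.update α (Fin.castAdd n i) 1 = β)).image (fun α => α (Fin.castAdd n i))) (by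
        intro x hx
        rw [mem_image] at hx
        obtain ⟨α, hα, rfl⟩ := hx
        rw [mem_filter] at hα
        obtain ⟨hα1, hα2⟩ := hα
        obtain ⟨hα3, hα4⟩ := hS α hα1
        refine ⟨(hα3 _).1, (hα3 _).2, ?_⟩
        rw [← hα2, ← Lam_update α (fun l => (hα3 l).1) b i]
        exact hα4)
    have h3 : ((((S.filter (fun α => Function.update α (Fin.castAdd n i) 1 = β)).image
        (fun α => α (Fin.castAdd n i))).card - 1 : ℕ) : ℝ) ≤ 16 * T * w := by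
      rcases Nat.eq_zero_or_pos (((S.filter (fun α => Function.update α (Fin.castAdd n i) 1 = β)).image
        (fun α => α (Fin.castAdd n i))).card) with h0 | h0
      · rw [h0]
        simp only [Nat.zero_sub, Nat.cast_zero]
        positivity
      · rw [Nat.cast_sub h0]
        push_cast
        linarith
    have h4 := Nat.le_floor h3
    omega)
  have h2 : (⌊16 * (T : ℝ) * w⌋₊ : ℝ) ≤ 16 * T * w := Nat.floor_le (by positivity)
  calc (S.card : ℝ) ≤ (((⌊16 * (T : ℝ) * w⌋₊ + 1) * T ^ (n + n - 1) : ℕ) : ℝ) := by exact_mod_cast h1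
    _ = ((⌊16 * (T : ℝ) * w⌋₊ : ℝ) + 1) * (T : ℝ) ^ (n + n - 1) := by push_cast; ring
    _ ≤ _ := mul_le_mul_of_nonneg_right (by linarith) (by positivity)

lemma one (n : ℕ) (T R : ℕ) (i : Fin n) (S : Finset (Fin (n + n) → ℤ))
    (hS : ∀ α ∈ S, (∀ j, 1 ≤ α j ∧ α j ≤ (T : ℤ)) ∧ hgt (rats α i) ≤ R) :
    S.card ≤ R ^ 2 * T ^ (n + n - 1) := by
  classical
  refine fiber_one T (R ^ 2) S (Fin.castAdd n i) (fun α hα => (hS α hα).1) (fun β => ?_)
  have h1 : (S.filter (fun α => Function.update α (Fin.castAdd n i) 1 = β)).card ≤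
      ((range (R + 1)).erase 0 ×ˢ (range (R + 1)).erase 0).card := by
    refine card_le_card_of_injOn (fun α => ((rats α i).num.natAbs, (rats α i).den)) ?_ ?_
    · intro α hα
      rw [mem_coe, mem_filter] at hα
      obtain ⟨hα3, hα4⟩ := hS α hα.1
      have hp : 0 < rats α i := by
        unfold rats
        have e1 : (0 : ℚ) < (α (Fin.castAdd n i) : ℚ) := by exact_mod_cast (by have := (hα3 (Fin.castAdd n i)).1; omega)
        have e2 : (0 : ℚ) < (α (Fin.natAdd n i) : ℚ) := by exact_mod_cast (by have := (hα3 (Fin.natAdd n i)).1; omega)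
        positivity
      have hn := Rat.num_pos.2 hp
      have hd := (rats α i).den_pos
      have h5 : (rats α i).num.natAbs ≤ R := (le_max_left _ _).trans hα4
      have h6 : (rats α i).den ≤ R := (le_max_right _ _).trans hα4
      simp only [coe_product, Set.mem_prod, mem_coe, mem_erase, mem_range]
      omega
    · intro α hα α' hα' h
      rw [mem_coe, mem_filter] at hα hα'
      have hαα : Function.update α (Fin.castAdd n i) 1 = Function.update α' (Fin.castAdd n i) 1 := hα.2.trans hα'.2.symm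
      refine fiber_ext hαα ?_
      obtain ⟨hα3, -⟩ := hS α hα.1
      obtain ⟨hα5, -⟩ := hS α' hα'.1
      have hne : Fin.natAdd n i ≠ Fin.castAdd n i := by
        intro h
        have := congrArg Fin.val h
        simp only [Fin.val_natAdd, Fin.val_castAdd] at this
        omega
      have hden : α (Fin.natAdd n i) = α' (Fin.natAdd n i) := by
        have := congrFun hαα (Fin.natAdd n i)
        rwa [Function.update_of_ne hne, Function.update_of_ne hne] at this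
      have e1 : (0 : ℚ) < (α (Fin.castAdd n i) : ℚ) := by exact_mod_cast (by have := (hα3 (Fin.castAdd n i)).1; omega)
      have e2 : (0 : ℚ) < (α (Fin.natAdd n i) : ℚ) := by exact_mod_cast (by have := (hα3 (Fin.natAdd n i)).1; omega)
      have e3 : (0 : ℚ) < (α' (Fin.castAdd n i) : ℚ) := by exact_mod_cast (by have := (hα5 (Fin.castAdd n i)).1; omega)
      have e4 : (0 : ℚ) < (α' (Fin.natAdd n i) : ℚ) := by exact_mod_cast (by have := (hα5 (Fin.natAdd n i)).1; omega)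
      have hp : 0 < rats α i := by unfold rats; positivity
      have hp' : 0 < rats α' i := by unfold rats; positivity
      have h7 := Rat.num_pos.2 hp
      have h8 := Rat.num_pos.2 hp'
      have h9 : rats α i = rats α' i := by
        have e5 := congrArg Prod.fst h
        have e6 := congrArg Prod.snd h
        simp only at e5 e6
        exact Rat.ext (by omega) e6
      unfold rats at h9
      rw [← hden, div_left_inj' e2.ne'] at h9
      exact_mod_cast h9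
  refine h1.trans (le_of_eq ?_)
  rw [card_product, card_erase_of_mem (by simp), card_range]
  simp [sq]

lemma hgt_pos (x : ℚ) : 0 < hgt x := lt_of_lt_of_le x.den_pos (le_max_right _ _)

/-- the inequality fails only if one quotient has small height or the linear form is small -/
lemma split {n : ℕ} {α : Fin (n + n) → ℤ} {b : Fin n → ℤ} (hb : b ≠ 0)
    (h : |Lam (rats α) b| ≤ (maxB b : ℝ) / (prodBA (rats α) b : ℝ)) {R : ℕ} {w : ℝ} (hw : 0 < w)
    (hR : 1 / w ≤ ((R : ℝ) + 1) ^ 2) :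
    ∃ i, b i ≠ 0 ∧ (hgt (rats α i) ≤ R ∨ |Lam (rats α) b| ≤ w) := by
  obtain ⟨j, hj⟩ : ∃ j, b j ≠ 0 := by
    by_contra hcon
    push Not at hcon
    exact hb (funext hcon)
  obtain ⟨i, -, hi⟩ := Finset.exists_max_image univ (fun j => (b j).natAbs) ⟨j, mem_univ j⟩
  have h1 : 1 ≤ (b i).natAbs := le_trans (by omega) (hi j (mem_univ j))
  have hmax : maxB b ≤ Bj (b i) := by
    unfold maxB
    apply Finset.sup_le
    intro l _
    have := hi l (mem_univ l)
    unfold Bj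
    omega
  refine ⟨i, by omega, ?_⟩
  by_cases hh : hgt (rats α i) ≤ R
  · exact Or.inl hh
  · right
    have hh' : (R : ℝ) + 1 ≤ hgt (rats α i) := by
      have : R + 1 ≤ hgt (rats α i) := by omega
      exact_mod_cast this
    have hpos : ∀ l, 0 < Bj (b l) * hgt (rats α l) ^ 2 := by
      intro l
      have e1 : 0 < Bj (b l) := by unfold Bj; omega
      have e2 := hgt_pos (rats α l)
      positivity
    have h2 : Bj (b i) * hgt (rats α i) ^ 2 ≤ prodBA (rats α) b := by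
      unfold prodBA
      exact Nat.le_of_dvd (Finset.prod_pos fun l _ => hpos l)
        (Finset.dvd_prod_of_mem (fun l => Bj (b l) * hgt (rats α l) ^ 2) (mem_univ i))
    have hB : (0 : ℝ) < Bj (b i) := by
      have : 0 < Bj (b i) := by unfold Bj; omega
      exact_mod_cast this
    have hH : (0 : ℝ) < (hgt (rats α i) : ℝ) ^ 2 := by
      have : (0 : ℝ) < hgt (rats α i) := by exact_mod_cast hgt_pos _
      positivity
    have h3 : (maxB b : ℝ) / (prodBA (rats α) b : ℝ) ≤ 1 / (hgt (rats α i) : ℝ) ^ 2 := by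
      have e1 : (maxB b : ℝ) ≤ Bj (b i) := by exact_mod_cast hmax
      have e2 : (Bj (b i) : ℝ) * (hgt (rats α i) : ℝ) ^ 2 ≤ prodBA (rats α) b := by exact_mod_cast h2
      calc (maxB b : ℝ) / (prodBA (rats α) b : ℝ) ≤ Bj (b i) / ((Bj (b i) : ℝ) * (hgt (rats α i) : ℝ) ^ 2) :=
            div_le_div₀ hB.le e1 (by positivity) e2
        _ = _ := by field_simp
    have h4 : 1 / (hgt (rats α i) : ℝ) ^ 2 ≤ w := by
      rw [div_le_iff₀ hH]
      rw [div_le_iff₀ hw] at hR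
      have e1 : ((R : ℝ) + 1) ^ 2 ≤ (hgt (rats α i) : ℝ) ^ 2 := by
        apply pow_le_pow_left₀ (by positivity) hh'
      nlinarith
    linarith

lemma count (n : ℕ) (hn : 1 ≤ n) (θ : ℝ) (hθ0 : 0 ≤ θ) (hθ : n * θ < 1) :
    ∃ C : ℝ, ∀ T : ℕ, 1 ≤ T → ({α : Fin (n + n) → ℤ | (∀ i, |α i| ≤ (T : ℤ)) ∧ α ∈ Exc n θ}.ncard : ℝ) ≤
      C * (T : ℝ) ^ (((n + n : ℕ) : ℝ) - (1 - n * θ) / 2) := by
  classical
  refine ⟨n + 17 * 3 ^ n * n, fun T hT => ?_⟩
  have hT1 : (1 : ℝ) ≤ T := by exact_mod_cast hT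
  have hT0 : (0 : ℝ) < T := by linarith
  have hnθ : 0 ≤ n * θ := by positivity
  obtain ⟨ρ, hρ⟩ : ∃ ρ : ℝ, ρ = (1 + n * θ) / 2 := ⟨_, rfl⟩
  have hρ0 : 0 < ρ := by rw [hρ]; linarith
  have hρ1 : ρ < 1 := by rw [hρ]; linarith
  obtain ⟨R, hR⟩ : ∃ R : ℕ, R = ⌊(T : ℝ) ^ (ρ / 2)⌋₊ := ⟨_, rfl⟩
  obtain ⟨K, hK⟩ : ∃ K : ℕ, K = ⌊(T : ℝ) ^ θ⌋₊ := ⟨_, rfl⟩
  obtain ⟨w, hw⟩ : ∃ w : ℝ, w = (T : ℝ) ^ (-ρ) := ⟨_, rfl⟩
  have hw0 : 0 < w := by rw [hw]; exact Real.rpow_pos_of_pos hT0 _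
  have hw1 : w ≤ 1 := by rw [hw]; exact Real.rpow_le_one_of_one_le_of_nonpos hT1 (by linarith)
  have hRle : (R : ℝ) ≤ (T : ℝ) ^ (ρ / 2) := by rw [hR]; exact Nat.floor_le (by positivity)
  have hRlt : (T : ℝ) ^ (ρ / 2) < (R : ℝ) + 1 := by rw [hR]; exact Nat.lt_floor_add_one _
  have hKle : (K : ℝ) ≤ (T : ℝ) ^ θ := by rw [hK]; exact Nat.floor_le (by positivity)
  have hsq : ((T : ℝ) ^ (ρ / 2)) ^ 2 = (T : ℝ) ^ ρ := by
    rw [← Real.rpow_natCast, ← Real.rpow_mul hT0.le]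
    congr 1
    push_cast
    ring
  have hwR : 1 / w ≤ ((R : ℝ) + 1) ^ 2 := by
    rw [hw, Real.rpow_neg hT0.le, one_div, inv_inv, ← hsq]
    exact pow_le_pow_left₀ (by positivity) hRlt.le 2
  obtain ⟨Box, hBox⟩ : ∃ Box : Finset (Fin (n + n) → ℤ), Box = Fintype.piFinset (fun _ => Icc 1 (T : ℤ)) := ⟨_, rfl⟩
  obtain ⟨S1, hS1⟩ : ∃ S1 : Fin n → Finset (Fin (n + n) → ℤ),
    S1 = fun i => Box.filter (fun α => hgt (rats α i) ≤ R) := ⟨_, rfl⟩
  obtain ⟨S2, hS2⟩ : ∃ S2 : (Fin n → ℤ) × Fin n → Finset (Fin (n + n) → ℤ),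
    S2 = fun q => Box.filter (fun α => |Lam (rats α) q.1| ≤ w) := ⟨_, rfl⟩
  obtain ⟨Bs, hBs⟩ : ∃ Bs : Finset (Fin n → ℤ), Bs = Fintype.piFinset (fun _ => Icc (-(K : ℤ)) K) := ⟨_, rfl⟩
  obtain ⟨Q, hQ⟩ : ∃ Q : Finset ((Fin n → ℤ) × Fin n), Q = (Bs ×ˢ univ).filter (fun q => q.1 q.2 ≠ 0) := ⟨_, rfl⟩
  have hmemBox : ∀ α : Fin (n + n) → ℤ, α ∈ Box ↔ ∀ j, 1 ≤ α j ∧ α j ≤ (T : ℤ) := by
    intro α
    rw [hBox, Fintype.mem_piFinset]
    simp only [mem_Icc]
  have hsub : {α : Fin (n + n) → ℤ | (∀ i, |α i| ≤ (T : ℤ)) ∧ α ∈ Exc n θ} ⊆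
      ((univ.biUnion S1 ∪ Q.biUnion S2 : Finset (Fin (n + n) → ℤ)) : Set (Fin (n + n) → ℤ)) := by
    rintro α ⟨h1, h2, b, hb, ⟨l, hl⟩, h3⟩
    have hα : α ∈ Box := by
      rw [hmemBox]
      intro j
      have e1 := h2 j
      have e2 := (abs_le.1 (h1 j)).2
      omega
    have hbB : b ∈ Bs := by
      rw [hBs, Fintype.mem_piFinset]
      intro j
      have e1 : |(b j : ℝ)| ≤ (T : ℝ) ^ θ := by
        refine (hl j).trans ?_
        apply Real.rpow_le_rpow _ _ hθ0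
        · exact_mod_cast (h2 l).le
        · exact_mod_cast (abs_le.1 (h1 l)).2
      have e2 : |b j| ≤ ((⌊(T : ℝ) ^ θ⌋₊ : ℕ) : ℤ) := Pool.Agent.N318.TG.abs_le_floor e1
      rw [← hK] at e2
      rw [mem_Icc]
      exact abs_le.1 e2
    obtain ⟨i, hbi, h4⟩ := split hb h3 hw0 hwR
    rw [mem_coe, mem_union, mem_biUnion, mem_biUnion]
    rcases h4 with h4 | h4
    · left
      refine ⟨i, mem_univ i, ?_⟩
      rw [hS1, mem_filter]
      exact ⟨hα, h4⟩
    · right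
      refine ⟨(b, i), ?_, ?_⟩
      · rw [hQ, mem_filter, mem_product]
        exact ⟨⟨hbB, mem_univ i⟩, hbi⟩
      · rw [hS2, mem_filter]
        exact ⟨hα, h4⟩
  have h1 := Set.ncard_le_ncard hsub (finite_toSet _)
  rw [Set.ncard_coe_finset] at h1
  have h2 : ((univ.biUnion S1 ∪ Q.biUnion S2).card : ℝ) ≤ ∑ i, ((S1 i).card : ℝ) + ∑ q ∈ Q, ((S2 q).card : ℝ) := by
    have e1 := card_union_le (univ.biUnion S1) (Q.biUnion S2)
    have e2 : (univ.biUnion S1).card ≤ ∑ i, (S1 i).card := card_biUnion_le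
    have e3 : (Q.biUnion S2).card ≤ ∑ q ∈ Q, (S2 q).card := card_biUnion_le
    have e4 := e1.trans (add_le_add e2 e3)
    exact_mod_cast e4
  have h3 : ∀ i, ((S1 i).card : ℝ) ≤ (T : ℝ) ^ ρ * (T : ℝ) ^ (n + n - 1) := by
    intro i
    have e1 := one n T R i (S1 i) (fun α hα => by
      rw [hS1, mem_filter] at hα
      exact ⟨(hmemBox α).1 hα.1, hα.2⟩)
    have e2 : ((S1 i).card : ℝ) ≤ (R : ℝ) ^ 2 * (T : ℝ) ^ (n + n - 1) := by exact_mod_cast e1
    refine e2.trans (mul_le_mul_of_nonneg_right ?_ (by positivity))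
    rw [← hsq]
    exact pow_le_pow_left₀ (by positivity) hRle 2
  have h4 : ∀ q ∈ Q, ((S2 q).card : ℝ) ≤ 17 * (T : ℝ) ^ (1 - ρ) * (T : ℝ) ^ (n + n - 1) := by
    intro q hq
    rw [hQ, mem_filter] at hq
    have e1 := two n T q.1 q.2 hq.2 w hw0.le hw1 (S2 q) (fun α hα => by
      rw [hS2, mem_filter] at hα
      exact ⟨(hmemBox α).1 hα.1, hα.2⟩)
    refine e1.trans (mul_le_mul_of_nonneg_right ?_ (by positivity))
    have e2 : (T : ℝ) * w = (T : ℝ) ^ (1 - ρ) := by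
      rw [hw, sub_eq_add_neg, Real.rpow_add hT0, Real.rpow_one]
    have e3 : 1 ≤ (T : ℝ) ^ (1 - ρ) := Real.one_le_rpow hT1 (by linarith)
    calc 16 * (T : ℝ) * w + 1 = 16 * ((T : ℝ) * w) + 1 := by ring
      _ ≤ _ := by rw [e2]; linarith
  have h5 : ((Q.card : ℕ) : ℝ) ≤ 3 ^ n * (T : ℝ) ^ (n * θ) * n := by
    have e1 : Q.card ≤ (2 * K + 1) ^ n * n := by
      rw [hQ]
      refine (card_filter_le _ _).trans ?_
      rw [card_product, card_univ, Fintype.card_fin, hBs, Fintype.card_piFinset_const, Int.card_Icc]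
      apply le_of_eq
      congr 2
      omega
    have e2 : ((2 * K + 1 : ℕ) : ℝ) ≤ 3 * (T : ℝ) ^ θ := by
      have : 1 ≤ (T : ℝ) ^ θ := Real.one_le_rpow hT1 hθ0
      push_cast
      linarith
    calc ((Q.card : ℕ) : ℝ) ≤ (((2 * K + 1) ^ n * n : ℕ) : ℝ) := by exact_mod_cast e1
      _ = ((2 * K + 1 : ℕ) : ℝ) ^ n * n := by push_cast; ring
      _ ≤ (3 * (T : ℝ) ^ θ) ^ n * n := mul_le_mul_of_nonneg_right (pow_le_pow_left₀ (by positivity) e2 n) (by positivity)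
      _ = _ := by
        rw [mul_pow, ← Real.rpow_natCast ((T : ℝ) ^ θ) n, ← Real.rpow_mul hT0.le, mul_comm θ (n : ℝ)]
  have hTn : (T : ℝ) ^ (n + n - 1) = (T : ℝ) ^ (((n + n : ℕ) : ℝ) - 1) := by
    rw [← Real.rpow_natCast]
    congr 1
    rw [Nat.cast_sub (by omega)]
    push_cast
    ring
  obtain ⟨Z, hZ⟩ : ∃ Z : ℝ, Z = (T : ℝ) ^ (((n + n : ℕ) : ℝ) - (1 - n * θ) / 2) := ⟨_, rfl⟩
  have h6 : (T : ℝ) ^ ρ * (T : ℝ) ^ (n + n - 1) = Z := by
    rw [hTn, ← Real.rpow_add hT0, hZ]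
    congr 1
    rw [hρ]
    ring
  have h7 : (T : ℝ) ^ (n * θ) * ((T : ℝ) ^ (1 - ρ) * (T : ℝ) ^ (n + n - 1)) = Z := by
    rw [hTn, ← Real.rpow_add hT0, ← Real.rpow_add hT0, hZ]
    congr 1
    rw [hρ]
    ring
  rw [← hZ]
  calc ({α : Fin (n + n) → ℤ | (∀ i, |α i| ≤ (T : ℤ)) ∧ α ∈ Exc n θ}.ncard : ℝ)
      ≤ ((univ.biUnion S1 ∪ Q.biUnion S2).card : ℝ) := by exact_mod_cast h1
    _ ≤ ∑ i, ((S1 i).card : ℝ) + ∑ q ∈ Q, ((S2 q).card : ℝ) := h2
    _ ≤ ∑ _i : Fin n, Z + ∑ _q ∈ Q, 17 * (T : ℝ) ^ (1 - ρ) * (T : ℝ) ^ (n + n - 1) :=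
        add_le_add (sum_le_sum fun i _ => (h3 i).trans (le_of_eq h6)) (sum_le_sum h4)
    _ = n * Z + Q.card * (17 * (T : ℝ) ^ (1 - ρ) * (T : ℝ) ^ (n + n - 1)) := by
        rw [sum_const, card_univ, Fintype.card_fin, nsmul_eq_mul, sum_const, nsmul_eq_mul]
    _ ≤ n * Z + (3 ^ n * (T : ℝ) ^ (n * θ) * n) * (17 * (T : ℝ) ^ (1 - ρ) * (T : ℝ) ^ (n + n - 1)) := by
        have := mul_le_mul_of_nonneg_right h5 (by positivity : (0 : ℝ) ≤ 17 * (T : ℝ) ^ (1 - ρ) * (T : ℝ) ^ (n + n - 1))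
        linarith
    _ = n * Z + 17 * 3 ^ n * n * ((T : ℝ) ^ (n * θ) * ((T : ℝ) ^ (1 - ρ) * (T : ℝ) ^ (n + n - 1))) := by ring
    _ = _ := by rw [h7]; ring

/-- Let `n ≥ 1`, `θ ≥ 0` and `n θ < 1`. (1) There is `η > 0` such that for all functions `F_1, …, F_(2n)` in the
class `LM`, all `U` and all large `N`, for all but `N^(2n) / (log N)^U` of the `m ∈ {1, …, N}^(2n)`: for ALL positive
integers `α_i = u_i F_i(m_i) + v_i` with `u_i ≠ 0` and `|u_i|, |v_i| ≤ F_l(m_l)^η` for some `l`, the rational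
numbers `a_j = α_j / α_(n+j)` (`1 ≤ j ≤ n`) satisfy Lang's inequality with `C = 1` and without loss in the exponent,
`|b_1 log a_1 + … + b_n log a_n| > B / ∏ B_j A_j²`, for ALL integral `b ≠ 0` with `|b_j| ≤ (max_i α_i)^θ`.
(2) Euler's function and the sum of divisors are in the class `LM`. -/
theorem result (n : ℕ) (hn : 1 ≤ n) (θ : ℝ) (hθ0 : 0 ≤ θ) (hθ : n * θ < 1) :
    (∃ η : ℝ, 0 < η ∧ ∀ F : Fin (n + n) → ℕ → ℕ, (∀ i, LM (F i)) → ∀ U : ℕ, ∃ N₀ : ℕ, ∀ N : ℕ, N₀ ≤ N →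
      ({m : Fin (n + n) → ℕ | (∀ i, 1 ≤ m i ∧ m i ≤ N) ∧ ¬ ∀ u v α : Fin (n + n) → ℤ,
        (∃ l, ∀ i, u i ≠ 0 ∧ |(u i : ℝ)| ≤ (F l (m l) : ℝ) ^ η ∧ |(v i : ℝ)| ≤ (F l (m l) : ℝ) ^ η) →
        (∀ i, α i = u i * (F i (m i) : ℤ) + v i ∧ 0 < α i) →
        ∀ b : Fin n → ℤ, b ≠ 0 → (∃ l, ∀ j, |(b j : ℝ)| ≤ (α l : ℝ) ^ θ) →
          (maxB b : ℝ) / (prodBA (rats α) b : ℝ) < |Lam (rats α) b|}.ncard : ℝ) ≤
        (N : ℝ) ^ (n + n) / Real.log N ^ U) ∧
    LM Nat.totient ∧ LM (fun m => ∑ d ∈ m.divisors, d) := by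
  refine ⟨?_, Pool.Agent.N733.TG.lm_totient, Pool.Agent.N733.TG.lm_sigma⟩
  obtain ⟨C, hC⟩ := count n hn θ hθ0 hθ
  obtain ⟨η, hη, h⟩ := Pool.Agent.N318.TG.keep_near (k := n + n) (by omega) (c := (1 - n * θ) / 2) (by linarith)
  refine ⟨η, hη, fun F hF U => ?_⟩
  obtain ⟨N₀, hN₀⟩ := h F hF C U
  refine ⟨N₀, fun N hN => ?_⟩
  refine le_trans ?_ (hN₀ N hN (Exc n θ) hC)
  have hfin : {m : Fin (n + n) → ℕ | (∀ i, 1 ≤ m i ∧ m i ≤ N) ∧ ¬ ((∀ i, 2 ≤ F i (m i)) ∧
        ∀ a b : Fin (n + n) → ℤ, (∃ l, ∀ i, a i ≠ 0 ∧ |(a i : ℝ)| ≤ (F l (m l) : ℝ) ^ η ∧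
          |(b i : ℝ)| ≤ (F l (m l) : ℝ) ^ η) →
        (fun i => a i * (F i (m i) : ℤ) + b i) ∉ Exc n θ)}.Finite := by
    refine (Set.Finite.pi' (fun _ : Fin (n + n) => Set.finite_Icc 1 N)).subset ?_
    intro m hm i
    exact hm.1 i
  have hsub : {m : Fin (n + n) → ℕ | (∀ i, 1 ≤ m i ∧ m i ≤ N) ∧ ¬ ∀ u v α : Fin (n + n) → ℤ,
        (∃ l, ∀ i, u i ≠ 0 ∧ |(u i : ℝ)| ≤ (F l (m l) : ℝ) ^ η ∧ |(v i : ℝ)| ≤ (F l (m l) : ℝ) ^ η) →
        (∀ i, α i = u i * (F i (m i) : ℤ) + v i ∧ 0 < α i) →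
        ∀ b : Fin n → ℤ, b ≠ 0 → (∃ l, ∀ j, |(b j : ℝ)| ≤ (α l : ℝ) ^ θ) →
          (maxB b : ℝ) / (prodBA (rats α) b : ℝ) < |Lam (rats α) b|} ⊆
      {m : Fin (n + n) → ℕ | (∀ i, 1 ≤ m i ∧ m i ≤ N) ∧ ¬ ((∀ i, 2 ≤ F i (m i)) ∧
        ∀ a b : Fin (n + n) → ℤ, (∃ l, ∀ i, a i ≠ 0 ∧ |(a i : ℝ)| ≤ (F l (m l) : ℝ) ^ η ∧
          |(b i : ℝ)| ≤ (F l (m l) : ℝ) ^ η) →
        (fun i => a i * (F i (m i) : ℤ) + b i) ∉ Exc n θ)} := by
    rintro m ⟨h1, h2⟩
    push Not at h2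
    obtain ⟨u, v, α, ⟨l, hl⟩, h3, b, hb, h4, h5⟩ := h2
    refine ⟨h1, fun h6 => ?_⟩
    refine h6.2 u v ⟨l, hl⟩ ?_
    have h7 : (fun i => u i * (F i (m i) : ℤ) + v i) = α := by
      funext i
      exact (h3 i).1.symm
    rw [h7]
    exact ⟨fun i => (h3 i).2, b, hb, h4, h5⟩
  exact_mod_cast Set.ncard_le_ncard hsub hfin

end Pool.Agent.Results.MP_90c6bd_nt.MultiplicativeValues
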