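import Pool.Agent.N671.DA.Tup
import Pool.Agent.Results.MP_90c6bd_nt.MultiplicativeValues

/-!
# Lang's lower bound for the quotients of the coordinates of the best approximation vectors of systems of linear forms

Let `n ≥ 1`, `θ ≥ 0` and `n θ < 1`. Let `α` be a real matrix with `2 n` rows and `m` columns, `β` in `ℝ^m` and `τ > 0`. We
consider the integer vectors `v = (v_1, …, v_(2n))` with `‖(v α)_j - β_j‖ ≤ c |v| ^ (-τ)` for `j = 1, …, m`, `‖x‖` the distance
to the nearest integer and `|v|` the maximum norm; for `β = 0`, `c = 1` and `τ = 2 n / m` they include all best approximation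
vectors of the system of the linear forms `v α`, by the theorem of Minkowski. We show that for all `α` outside a set of
Hausdorff dimension at most `(2 n - 1) m + (m + 2 n - (1 - n θ) / 2) / (1 + τ)`, less than `2 n m` for `τ = 2 n / m`, and so for
almost all `α`, the following is true for all large `v` of this kind: the coordinates `v_i` are not `0`, and the rational
numbers `a_j = |v_j| / |v_(n+j)|`, `j = 1, …, n`, satisfy Lang's inequality with `C = 1` and without loss in the exponent,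
`|b_1 log a_1 + … + b_n log a_n| > B / ∏ B_j A_j²`, for ALL integral `b ≠ 0` with `|b_j| ≤ |v| ^ θ`.

The best approximation vectors are a very sparse sequence, about `log T` vectors of norm at most `T`, and so this does not
follow from the size of the exceptional set, which is only smaller than `T^(2n)` by a factor `T^(1/2)` at most.

Proof. The exceptional vectors with coordinates up to `T` are at most `C T^(2 n - (1 - n θ) / 2)` (the file
`MultiplicativeValues` of this problem). The matrices `α` with `‖(v α)_j - β_j‖ ≤ c |v| ^ (-τ)` form neighbourhoods of parallel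
affine subspaces, covered by cubes of side `|v| ^ (-1 - τ)` (`Pool.Agent.N671.DA`).
-/

set_option autoImplicit false

namespace Pool.Agent.Results.MP_90c6bd_nt.BestApproximations

open Pool.Agent.N671.DA (Near approx_tuples)
open Pool.Agent.Results.MP_90c6bd_nt.MultiplicativeValues (Lam maxB prodBA rats Exc count)

/-- **Lang's lower bound at the best approximation vectors.** Let `n ≥ 1`, `θ ≥ 0`, `n θ < 1`, `β ∈ ℝ^m` and `τ > 0`. For all
real matrices `α` with `2 n` rows and `m` columns outside a set of Hausdorff dimension at most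
`(2 n - 1) m + (m + 2 n - (1 - n θ) / 2) / (1 + τ)` and all `c`, for all large integer vectors `v` with
`‖(v α)_j - β_j‖ ≤ c |v| ^ (-τ)` for all `j`: no coordinate of `v` is `0`, and the rational numbers `a_j = |v_j| / |v_(n+j)|`
satisfy `|b_1 log a_1 + … + b_n log a_n| > B / ∏ B_j A_j²`, `B_j = max (1, |b_j|)`, `B = max B_j`, `A_j` the height of `a_j`,
for ALL integral `b ≠ 0` with `|b_j| ≤ |v| ^ θ`. -/
theorem result (n : ℕ) (hn : 1 ≤ n) (θ : ℝ) (hθ0 : 0 ≤ θ) (hθ : n * θ < 1) (m : ℕ) (β : Fin m → ℝ) (τ : ℝ)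
    (hτ : 0 < τ) :
    ∃ E : Set (Fin (n + n) × Fin m → ℝ),
      dimH E ≤ ENNReal.ofReal ((2 * (n : ℝ) - 1) * m + (m + (2 * (n : ℝ) - (1 - n * θ) / 2)) / (1 + τ)) ∧
      ∀ α, α ∉ E → ∀ c : ℝ, ∃ Q : ℝ, ∀ v : Fin (n + n) → ℤ, Q ≤ ‖v‖ → Near α β v (c * ‖v‖ ^ (-τ)) →
        (∀ i, v i ≠ 0) ∧
        ∀ a : Fin n → ℚ, (∀ j, a j = |(v (Fin.castAdd n j) : ℚ)| / |(v (Fin.natAdd n j) : ℚ)|) →
          ∀ b : Fin n → ℤ, b ≠ 0 → (∀ j, |(b j : ℝ)| ≤ ‖v‖ ^ θ) →
            (maxB b : ℝ) / (prodBA a b : ℝ) < |Lam a b| := by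
  obtain ⟨C, hC⟩ := count n hn θ hθ0 hθ
  have hnθ : 0 ≤ n * θ := by positivity
  obtain ⟨W, hW⟩ : ∃ W : Set (Fin (n + n) → ℕ), W = {w | (fun i => (w i : ℤ)) ∈ Exc n θ} := ⟨_, rfl⟩
  have hWc : ∀ T : ℕ, 1 ≤ T → (({w : Fin (n + n) → ℕ | (∀ i, 2 ≤ w i ∧ w i ≤ T) ∧ w ∈ W}.ncard : ℕ) : ℝ) ≤
      C * (T : ℝ) ^ (((n + n : ℕ) : ℝ) - (1 - n * θ) / 2) := by
    intro T hT
    refine le_trans ?_ (hC T hT)
    have hsub : (fun (w : Fin (n + n) → ℕ) (i : Fin (n + n)) => (w i : ℤ)) ''
        {w : Fin (n + n) → ℕ | (∀ i, 2 ≤ w i ∧ w i ≤ T) ∧ w ∈ W} ⊆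
        {α : Fin (n + n) → ℤ | (∀ i, |α i| ≤ (T : ℤ)) ∧ α ∈ Exc n θ} := by
      rintro _ ⟨w, ⟨hw1, hw2⟩, rfl⟩
      rw [hW] at hw2
      refine ⟨fun i => ?_, hw2⟩
      rw [abs_of_nonneg (Int.natCast_nonneg _)]
      exact_mod_cast (hw1 i).2
    have hinj : Function.Injective (fun (w : Fin (n + n) → ℕ) (i : Fin (n + n)) => (w i : ℤ)) := by
      intro u w huw
      funext i
      exact Int.ofNat_injective (congrFun huw i)
    have hfin : {α : Fin (n + n) → ℤ | (∀ i, |α i| ≤ (T : ℤ)) ∧ α ∈ Exc n θ}.Finite := by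
      refine (Set.Finite.pi' fun _ : Fin (n + n) => Set.finite_Icc (-(T : ℤ)) (T : ℤ)).subset ?_
      rintro α ⟨h1, -⟩ i
      exact abs_le.1 (h1 i)
    have h2 := Set.ncard_le_ncard hsub hfin
    rw [Set.ncard_image_of_injective _ hinj] at h2
    exact_mod_cast h2
  obtain ⟨E, hE, hE2⟩ := approx_tuples (k := n + n) (m := m) (by omega) W (c₀ := (1 - n * θ) / 2) (by linarith) hWc β hτ
  refine ⟨E, ?_, fun α hα c => ?_⟩
  · refine hE.trans (le_of_eq ?_)
    congr 1
    push_cast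
    ring
  · obtain ⟨Q, hQ⟩ := hE2 α hα c
    refine ⟨Q, fun v hv h1 => ?_⟩
    obtain ⟨h2, h3⟩ := hQ v hv h1
    have hv0 : ∀ i, v i ≠ 0 := by
      intro i hi
      have := h2 i
      rw [hi] at this
      simp at this
    refine ⟨hv0, fun a ha b hb hbθ => ?_⟩
    by_contra hcon
    push Not at hcon
    apply h3
    rw [hW]
    show (fun i => (((v i).natAbs : ℕ) : ℤ)) ∈ Exc n θ
    have ha' : rats (fun i => (((v i).natAbs : ℕ) : ℤ)) = a := by
      funext j
      rw [ha j]
      unfold rats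
      simp only [Nat.cast_natAbs, Int.cast_abs]
      norm_cast
    have : Nonempty (Fin (n + n)) := ⟨⟨0, by omega⟩⟩
    obtain ⟨l, hl⟩ : ∃ l, ‖v‖ = ‖v l‖ := by
      obtain ⟨l, -, hl⟩ := Finset.exists_max_image Finset.univ (fun i => ‖v i‖) Finset.univ_nonempty
      refine ⟨l, le_antisymm ?_ (norm_le_pi_norm v l)⟩
      exact (pi_norm_le_iff_of_nonneg (norm_nonneg _)).2 fun i => hl i (Finset.mem_univ i)
    refine ⟨fun i => ?_, b, hb, ⟨l, fun j => ?_⟩, ?_⟩
    · have := hv0 i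
      show (0 : ℤ) < (((v i).natAbs : ℕ) : ℤ)
      omega
    · have h4 := hbθ j
      rw [hl, Int.norm_eq_abs] at h4
      have h5 : ((((v l).natAbs : ℕ) : ℤ) : ℝ) = |(v l : ℝ)| := by
        rw [Int.cast_natCast, Nat.cast_natAbs, Int.cast_abs]
      show |(b j : ℝ)| ≤ ((((v l).natAbs : ℕ) : ℤ) : ℝ) ^ θ
      rw [h5]
      exact h4
    · rw [ha']
      exact hcon

end Pool.Agent.Results.MP_90c6bd_nt.BestApproximations
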