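import Mathlib
import Pool.Agent.N790.CM.F
import Pool.Agent.Results.MP_90c6bd_nt.MultiplicativeValues

/-!
# Lang's lower bound at all multiples of Carmichael's function of almost all integers

For almost all tuples `(m_1, …, m_2n)` Lang's inequality, with `C = 1` and without loss in the exponent, holds for ALL
rational numbers whose numerators and denominators are close to ARBITRARY multiples `w_i ≤ N^B` of Carmichael's function
`λ(m_i)`, for some `B > 1`. More generally `w_i` is any common multiple of the values `f_i(p)`, `p` running through the large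
primes which divide `m_i` exactly once, where `f_i` takes each positive value at boundedly many primes.

A single tuple has a power of `N` multiples of this kind, and a single number `w ≤ N^B` can be a multiple of `λ(m)` for more
than `N^(1 - ε)` numbers `m ≤ N` (popular values). So this does not follow from the number of exceptional tuples. The proof
uses that outside a set of `N / (log N)^U` numbers `m ≤ N` every `w ≤ N^B` is a common multiple for at most `N^δ` of the `m`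
(`N790/CM`): `m = k u` with `k ≤ N^(δ/4)` composed of small primes and `u` a product of `c log log N` different primes `p`
with `f(p) ∣ w`.
-/

set_option autoImplicit false

namespace Pool.Agent.Results.MP_90c6bd_nt.CarmichaelMultiples

open Finset
open Pool.Agent.N790.CM (FewTimes Carries fewTimes_pred carries_carmichael keep_near)
open Pool.Agent.Results.MP_90c6bd_nt.MultiplicativeValues (rats Lam maxB prodBA Exc count)

/-- Let `n ≥ 1`, `θ ≥ 0`, `n θ < 1`, and `B ≥ 1` with `B (2 n - (1 - n θ) / 2) < 2 n`. (1) There is `η > 0` such that for all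
functions `F_1, …, F_2n` which take each positive value at most `T` times at the primes, all `U` and all large `N`, for all
but `N^(2n) / (log N)^U` of the `m ∈ {1, …, N}^(2n)`: for ALL `w_1, …, w_2n` with `1 ≤ w_i ≤ N^B` and `F_i(p) ∣ w_i` for all
primes `p > exp (√(log N))` which divide `m_i` exactly once, and for ALL positive integers `α_i = u_i w_i + v_i` with
`u_i ≠ 0` and `|u_i|, |v_i| ≤ w_l^η` for some `l`, the rational numbers `a_j = α_j / α_(n+j)` (`1 ≤ j ≤ n`) satisfy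
`|b_1 log a_1 + … + b_n log a_n| > B(b) / ∏ B_j A_j²` for ALL integral `b ≠ 0` with `|b_j| ≤ (max_i α_i)^θ`.
(2) `F(p) = p - 1` is such a function, with `T = 1`, and all multiples of Carmichael's function `λ(m)` are divisible by the
`p - 1`, `p ∣ m`. -/
theorem result (n : ℕ) (hn : 1 ≤ n) (θ : ℝ) (hθ0 : 0 ≤ θ) (hθ : n * θ < 1) (B : ℝ) (hB : 1 ≤ B)
    (hB2 : B * (2 * n - (1 - n * θ) / 2) < 2 * n) :
    (∃ η : ℝ, 0 < η ∧ ∀ (T : ℕ) (F : Fin (n + n) → ℕ → ℕ), (∀ i, FewTimes (F i) T) → ∀ U : ℕ, ∃ N₀ : ℕ, ∀ N : ℕ,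
      N₀ ≤ N → ({m : Fin (n + n) → ℕ | (∀ i, 1 ≤ m i ∧ m i ≤ N) ∧ ¬ ∀ w : Fin (n + n) → ℕ,
        (∀ i, 1 ≤ w i ∧ (w i : ℝ) ≤ (N : ℝ) ^ B ∧ Carries (F i) (Real.exp √(Real.log N)) (m i) (w i)) →
        ∀ u v α : Fin (n + n) → ℤ,
        (∃ l, ∀ i, u i ≠ 0 ∧ |(u i : ℝ)| ≤ (w l : ℝ) ^ η ∧ |(v i : ℝ)| ≤ (w l : ℝ) ^ η) →
        (∀ i, α i = u i * (w i : ℤ) + v i ∧ 0 < α i) →
        ∀ b : Fin n → ℤ, b ≠ 0 → (∃ l, ∀ j, |(b j : ℝ)| ≤ (α l : ℝ) ^ θ) →
          (maxB b : ℝ) / (prodBA (rats α) b : ℝ) < |Lam (rats α) b|}.ncard : ℝ) ≤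
        (N : ℝ) ^ (n + n) / Real.log N ^ U) ∧
    FewTimes (fun p => p - 1) 1 ∧
    ∀ (y : ℝ) (m w : ℕ), ArithmeticFunction.carmichael m ∣ w → Carries (fun p => p - 1) y m w := by
  refine ⟨?_, fewTimes_pred, carries_carmichael⟩
  obtain ⟨C, hC⟩ := count n hn θ hθ0 hθ
  have hn1 : (1 : ℝ) ≤ n := by exact_mod_cast hn
  have hnθ : 0 ≤ n * θ := by positivity
  obtain ⟨η, hη, h⟩ := keep_near (k := n + n) (by omega) (c := (1 - n * θ) / 2) (B := B)
    (by push_cast; linarith) hB (by push_cast; rw [← two_mul]; exact hB2)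
  refine ⟨η, hη, fun T F hF U => ?_⟩
  obtain ⟨N₀, hN₀⟩ := h T F hF C U
  refine ⟨N₀, fun N hN => ?_⟩
  refine le_trans ?_ (hN₀ N hN (Exc n θ) hC)
  have hfin : {m : Fin (n + n) → ℕ | (∀ i, 1 ≤ m i ∧ m i ≤ N) ∧ ¬ ∀ w : Fin (n + n) → ℕ,
        (∀ i, 1 ≤ w i ∧ (w i : ℝ) ≤ (N : ℝ) ^ B ∧ Carries (F i) (Real.exp √(Real.log N)) (m i) (w i)) →
        ∀ a b : Fin (n + n) → ℤ, (∃ l, ∀ i, a i ≠ 0 ∧ |(a i : ℝ)| ≤ (w l : ℝ) ^ η ∧ |(b i : ℝ)| ≤ (w l : ℝ) ^ η) →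
        (fun i => a i * (w i : ℤ) + b i) ∉ Exc n θ}.Finite := by
    refine (Set.Finite.pi' (fun _ : Fin (n + n) => Set.finite_Icc 1 N)).subset ?_
    intro m hm i
    exact hm.1 i
  have hsub : {m : Fin (n + n) → ℕ | (∀ i, 1 ≤ m i ∧ m i ≤ N) ∧ ¬ ∀ w : Fin (n + n) → ℕ,
        (∀ i, 1 ≤ w i ∧ (w i : ℝ) ≤ (N : ℝ) ^ B ∧ Carries (F i) (Real.exp √(Real.log N)) (m i) (w i)) →
        ∀ u v α : Fin (n + n) → ℤ,
        (∃ l, ∀ i, u i ≠ 0 ∧ |(u i : ℝ)| ≤ (w l : ℝ) ^ η ∧ |(v i : ℝ)| ≤ (w l : ℝ) ^ η) →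
        (∀ i, α i = u i * (w i : ℤ) + v i ∧ 0 < α i) →
        ∀ b : Fin n → ℤ, b ≠ 0 → (∃ l, ∀ j, |(b j : ℝ)| ≤ (α l : ℝ) ^ θ) →
          (maxB b : ℝ) / (prodBA (rats α) b : ℝ) < |Lam (rats α) b|} ⊆
      {m : Fin (n + n) → ℕ | (∀ i, 1 ≤ m i ∧ m i ≤ N) ∧ ¬ ∀ w : Fin (n + n) → ℕ,
        (∀ i, 1 ≤ w i ∧ (w i : ℝ) ≤ (N : ℝ) ^ B ∧ Carries (F i) (Real.exp √(Real.log N)) (m i) (w i)) →
        ∀ a b : Fin (n + n) → ℤ, (∃ l, ∀ i, a i ≠ 0 ∧ |(a i : ℝ)| ≤ (w l : ℝ) ^ η ∧ |(b i : ℝ)| ≤ (w l : ℝ) ^ η) →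
        (fun i => a i * (w i : ℤ) + b i) ∉ Exc n θ} := by
    rintro m ⟨h1, h2⟩
    push Not at h2
    obtain ⟨w, hw, u, v, α, ⟨l, hl⟩, h3, b, hb, h4, h5⟩ := h2
    refine ⟨h1, fun h6 => ?_⟩
    refine h6 w hw u v ⟨l, hl⟩ ?_
    have h7 : (fun i => u i * (w i : ℤ) + v i) = α := by
      funext i
      exact (h3 i).1.symm
    rw [h7]
    exact ⟨fun i => (h3 i).2, b, hb, h4, h5⟩
  exact_mod_cast Set.ncard_le_ncard hsub hfin

end Pool.Agent.Results.MP_90c6bd_nt.CarmichaelMultiples
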