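import Pool.Agent.N891.GM.CoreV
import Pool.Agent.Results.MP_90c6bd_nt.MultiplicativeValues

/-!
# Lang's lower bound for all rationals near the multiples of a generic vector

Let `θ ≥ 0`, `n θ < 1`, and let `a_N` be any sequence of real numbers of order `ρ`, that is, with `O(X ^ (ρ + ε))` members
of absolute value at most `X`; for example `N!` or `2 ^ N` (`ρ = 0`), or `N ^ t` (`ρ = 1 / t`). For all vectors `x ∈ ℝ^(2n)`
outside a set of Hausdorff dimension at most `(2 n - (1 - n θ) / 2 + ρ) / (1 - κ)` and all `K` the following holds for all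
large `N`: for ALL `n`-tuples of positive rationals whose numerators and denominators can be written as `α_i` with
`|α_i - a_N x_i| ≤ K |a_N| ^ κ` (they need not be coprime) Lang's inequality holds with `C = 1` and without `ε`, for ALL
nonzero integer vectors `b` with `max |b_j| ≤ (max α) ^ θ`. If `ρ + 2 n κ < (1 - n θ) / 2` the bound for the dimension is
less than `2 n`, so that this holds for almost all `x`.

For a fixed `x` and, say, `a_N = N!` these are very few tuples, not seen by the number of the exceptional tuples up to a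
given height.

Proof. The exceptional vectors `α` with coordinates up to `T` are `O(T ^ (2 n - (1 - n θ) / 2))` (helper578,
`MultiplicativeValues`), and a thin set of integral vectors is covered, after division by `a_N`, by few small cubes
(`Pool.Agent.N891.GM`).
-/

set_option autoImplicit false

namespace Pool.Agent.Results.MP_90c6bd_nt.GenericMultiples

open Pool.Agent.N891.GM (OfOrder examples)
open Pool.Agent.Results.MP_90c6bd_nt.MultiplicativeValues (Lam maxB prodBA rats Exc count)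

/-- Lang's inequality with `C = 1` and without `ε` holds for the rationals with the numerators `α_1, …, α_n` and the
denominators `α_(n+1), …, α_(2n)` and all integer vectors `b ≠ 0` with `max |b_j| ≤ (max α) ^ θ`. -/
def LangBound {n : ℕ} (θ : ℝ) (α : Fin (n + n) → ℤ) : Prop :=
  ∀ b : Fin n → ℤ, b ≠ 0 → (∃ l, ∀ j, |(b j : ℝ)| ≤ (α l : ℝ) ^ θ) →
    (maxB b : ℝ) / (prodBA (rats α) b : ℝ) < |Lam (rats α) b|

/-- **Theorem.** Let `n ≥ 1`, `θ ≥ 0`, `n θ < 1`, let the sequence `a` be of order at most `ρ`, and `κ < 1`. For all `x` in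
`ℝ^(2n)` outside a set of Hausdorff dimension at most `(2 n - (1 - n θ) / 2 + ρ) / (1 - κ)` and all `K`, for all large `N`,
Lang's inequality with `C = 1` and without `ε` holds for ALL rationals with positive numerators `α_1, …, α_n` and
denominators `α_(n+1), …, α_(2n)` such that `|α_i - a_N x_i| ≤ K |a_N| ^ κ` for all `i`, for all nonzero integer vectors `b`
with `max |b_j| ≤ (max α) ^ θ`. The sequences `N!` and `r ^ N`, `r > 1`, are of order `0`, and `N ^ t` is of order `1 / t`. -/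
theorem result :
    (∀ n : ℕ, 1 ≤ n → ∀ θ : ℝ, 0 ≤ θ → n * θ < 1 → ∀ (a : ℕ → ℝ) (ρ : ℝ), 0 ≤ ρ → OfOrder a ρ → ∀ κ : ℝ, κ < 1 →
      ∃ Z : Set (Fin (n + n) → ℝ), dimH Z ≤ ENNReal.ofReal ((2 * n - (1 - n * θ) / 2 + ρ) / (1 - κ)) ∧
        ∀ x, x ∉ Z → ∀ K : ℝ, ∃ N₀ : ℕ, ∀ N : ℕ, N₀ ≤ N → ∀ α : Fin (n + n) → ℤ, (∀ i, 0 < α i) →
          (∀ i, |(α i : ℝ) - a N * x i| ≤ K * |a N| ^ κ) → LangBound θ α) ∧
    OfOrder (fun n => (n.factorial : ℝ)) 0 ∧ (∀ r : ℝ, 1 < r → OfOrder (fun n => r ^ n) 0) ∧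
    ∀ t : ℝ, 0 < t → OfOrder (fun n => (n : ℝ) ^ t) (1 / t) := by
  refine ⟨fun n hn θ hθ0 hθ a ρ hρ ha κ hκ1 => ?_, examples⟩
  obtain ⟨C, hC⟩ := count n hn θ hθ0 hθ
  have hn1 : (1 : ℝ) ≤ n := by exact_mod_cast hn
  have hnθ : 0 ≤ n * θ := by positivity
  have hs : 0 ≤ ((n + n : ℕ) : ℝ) - (1 - n * θ) / 2 := by
    push_cast
    linarith
  obtain ⟨Z, h1, h2⟩ := Pool.Agent.N891.GM.vec_of_count (Exc n θ) hs hρ hκ1 hC ha
  refine ⟨Z, ?_, fun x hx K => ?_⟩
  · have e : ((n + n : ℕ) : ℝ) - (1 - n * θ) / 2 = 2 * n - (1 - n * θ) / 2 := by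
      push_cast
      ring
    rwa [e] at h1
  · obtain ⟨N₀, h3⟩ := h2 x hx K
    refine ⟨N₀, fun N hN α hα hnear b hb hbα => ?_⟩
    by_contra hcon
    push Not at hcon
    exact h3 N hN α ⟨hα, b, hb, hbα, hcon⟩ hnear

end Pool.Agent.Results.MP_90c6bd_nt.GenericMultiples
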